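import Pool.Agent.H95.PerfD.Corrector
import Pool.Agent.H4.NM.PerfDefs

/-!
# The corrector in a finite dimensional inner product space

Transfer of the results of `Corrector.lean` from `EuclideanSpace ℝ (Fin d)` to a general space by
the isometry `(stdOrthonormalBasis ℝ E).repr`.
-/

open MeasureTheory Set Metric Filter Topology Module
open scoped RealInnerProductSpace Gradient

namespace Pool.Agent.H95.PerfD

open Pool.Agent.H95.Perf (IsLip)

/-- The weighted mean value identity in `ℝ^d`. -/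
theorem mv_weight_V {d : ℕ} (hd : d ≠ 0) (p : V d) {r R : ℝ} (hr : 0 < r) (hrR : r < R)
    {ψ : V d → ℝ} (hψ : IsLip ψ) (h0 : ∀ x ∈ closedBall p r, ψ x = 0) :
    ∫ x in ball p R, ((R / ‖x - p‖) ^ d - 1) * ⟪x - p, ∇ ψ x⟫ = (d : ℝ) * ∫ x in ball p R, ψ x := by
  have h1 := integral_ip_zz hd p hr hrR hψ h0
  have hb := bb_pos hd hr hrR
  have hψ' : ∀ x, ‖x - p‖ < r → ∇ ψ x = 0 := by
    intro x hx
    have : ψ =ᶠ[𝓝 x] fun _ => (0 : ℝ) := by
      filter_upwards [eventually_lt_norm hx] with y hy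
      apply h0
      rw [mem_closedBall, dist_eq_norm]
      exact hy.le
    rw [gradient, this.fderiv_eq]; simp
  have h2 : ∫ x, ip (zz p r R) ψ x =
      bb d r R * ∫ x in ball p R, ((R / ‖x - p‖) ^ d - 1) * ⟪x - p, ∇ ψ x⟫ := by
    rw [← integral_const_mul, ← integral_indicator measurableSet_ball]
    refine integral_congr_ae ?_
    filter_upwards [ae_regions hd p r R] with x hx
    have hmem : x ∈ ball p R ↔ ‖x - p‖ < R := by rw [mem_ball, dist_eq_norm]
    rcases hx with hx | ⟨hx1, hx2⟩ | hx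
    · rw [indicator_of_mem (hmem.2 (hx.trans hrR)), ip, hψ' x hx]
      simp
    · rw [indicator_of_mem (hmem.2 hx2), ip, inner_gradient, fderiv_zz_mid p hr hx1 hx2, div_pow]
      ring
    · rw [indicator_of_notMem (by rw [hmem]; exact not_lt.2 hx.le), ip, inner_gradient,
        fderiv_zz_out hd p hr hrR hx]
      simp
  rw [h2] at h1
  have h3 : bb d r R * ∫ x in ball p R, ((R / ‖x - p‖) ^ d - 1) * ⟪x - p, ∇ ψ x⟫ =
      bb d r R * ((d : ℝ) * ∫ x in ball p R, ψ x) := by rw [h1]; ring
  exact mul_left_cancel₀ hb.ne' h3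

section

variable {E : Type} [NormedAddCommGroup E] [InnerProductSpace ℝ E] [FiniteDimensional ℝ E]
  [CompleteSpace E] [MeasurableSpace E] [BorelSpace E]

/-- the isometry -/
noncomputable def LL (E : Type) [NormedAddCommGroup E] [InnerProductSpace ℝ E]
    [FiniteDimensional ℝ E] : E ≃ₗᵢ[ℝ] V (finrank ℝ E) := (stdOrthonormalBasis ℝ E).repr

omit [CompleteSpace E] in
theorem mp_LL : MeasurePreserving (LL E) volume volume :=
  (stdOrthonormalBasis ℝ E).measurePreserving_repr

omit [MeasurableSpace E] [BorelSpace E] in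
theorem inner_gradient' (f : E → ℝ) (x v : E) : ⟪∇ f x, v⟫ = fderiv ℝ f x v := by
  rw [← toDual_gradient]; rfl

omit [MeasurableSpace E] [BorelSpace E] in
theorem gradient_comp_LL (f : V (finrank ℝ E) → ℝ) (x : E) :
    ∇ (fun y => f (LL E y)) x = (LL E).symm (∇ f (LL E x)) := by
  refine ext_inner_right ℝ fun v => ?_
  rw [inner_gradient']
  have h1 : fderiv ℝ (fun y => f (LL E y)) x =
      (fderiv ℝ f (LL E x)).comp ((LL E).toContinuousLinearEquiv : E →L[ℝ] V (finrank ℝ E)) :=
    (LL E).toContinuousLinearEquiv.comp_right_fderiv (f := f) (x := x)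
  rw [h1, ContinuousLinearMap.comp_apply, ← inner_gradient]
  have h2 := (LL E).symm.inner_map_map (∇ f (LL E x)) (LL E v)
  rw [(LL E).symm_apply_apply] at h2
  exact h2.symm

theorem integral_comp_LL (h : V (finrank ℝ E) → ℝ) : ∫ x, h (LL E x) = ∫ y, h y :=
  (mp_LL (E := E)).integral_comp (LL E).toHomeomorph.measurableEmbedding h

omit [CompleteSpace E] in
theorem isLip_comp_LL {f : V (finrank ℝ E) → ℝ} (hf : IsLip f) : IsLip (fun x => f (LL E x)) := by
  obtain ⟨C, hC⟩ := hf
  exact ⟨C * 1, hC.comp (LL E).lipschitz⟩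

omit [CompleteSpace E] in
theorem isLip_comp_symm {f : E → ℝ} (hf : IsLip f) : IsLip (fun x => f ((LL E).symm x)) := by
  obtain ⟨C, hC⟩ := hf
  exact ⟨C * 1, hC.comp (LL E).symm.lipschitz⟩

omit [CompleteSpace E] in
theorem norm_LL_sub (x p : E) : ‖LL E x - LL E p‖ = ‖x - p‖ := by
  rw [← map_sub, LinearIsometryEquiv.norm_map]

theorem mv_weight (hd : 2 ≤ finrank ℝ E) (p : E) {r R : ℝ} (hr : 0 < r) (hrR : r < R)
    {ψ : E → ℝ} (hψ : IsLip ψ) (h0 : ∀ x ∈ closedBall p r, ψ x = 0) :
    ∫ x in ball p R, ((R / ‖x - p‖) ^ finrank ℝ E - 1) * ⟪x - p, gradient ψ x⟫ =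
      (finrank ℝ E : ℝ) * ∫ x in ball p R, ψ x := by
  set φ : V (finrank ℝ E) → ℝ := fun y => ψ ((LL E).symm y) with hφ
  have hφψ : ∀ x, φ (LL E x) = ψ x := fun x => by rw [hφ]; simp
  have hφψ' : (fun x => φ (LL E x)) = ψ := funext hφψ
  have hgr : ∀ x, ∇ ψ x = (LL E).symm (∇ φ (LL E x)) := fun x => by
    rw [← gradient_comp_LL φ x, hφψ']
  have h := mv_weight_V (d := finrank ℝ E) (by omega) (LL E p) hr hrR (ψ := φ)
    (isLip_comp_symm hψ) (fun x hx => by
      apply h0
      rw [mem_closedBall, dist_eq_norm] at hx ⊢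
      rwa [← norm_LL_sub, (LL E).apply_symm_apply])
  have hball : ∀ x, LL E x ∈ ball (LL E p) R ↔ x ∈ ball p R := fun x => by
    rw [mem_ball, mem_ball, dist_eq_norm, dist_eq_norm, norm_LL_sub]
  rw [← integral_indicator measurableSet_ball, ← integral_indicator measurableSet_ball,
    ← integral_comp_LL, ← integral_comp_LL] at h
  rw [← integral_indicator measurableSet_ball, ← integral_indicator measurableSet_ball]
  convert h using 2
  · funext x
    by_cases hx : x ∈ ball p R
    · rw [indicator_of_mem hx, indicator_of_mem ((hball x).2 hx), norm_LL_sub, hgr x]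
      have h2 := (LL E).inner_map_map (x - p) ((LL E).symm (∇ φ (LL E x)))
      rw [(LL E).apply_symm_apply, map_sub] at h2
      rw [h2]
    · rw [indicator_of_notMem hx, indicator_of_notMem (mt (hball x).1 hx)]
  · refine integral_congr_ae (Eventually.of_forall fun x => ?_)
    by_cases hx : x ∈ ball p R
    · simp only [indicator_of_mem hx, indicator_of_mem ((hball x).2 hx), hφψ]
    · simp only [indicator_of_notMem hx, indicator_of_notMem (mt (hball x).1 hx)]

theorem exists_corr (hd : 2 ≤ finrank ℝ E) (p : E) {R k : ℝ} (hR : 0 < R) (hk : 0 < k) :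
    ∃ (r : ℝ) (z : E → ℝ), Pool.Agent.H4.NM.IsCorr p R k r z := by
  have hd0 : finrank ℝ E ≠ 0 := by omega
  have hdpos : (0 : ℝ) < finrank ℝ E := by exact_mod_cast Nat.pos_of_ne_zero hd0
  obtain ⟨r, hr, hrR, hII⟩ := exists_II_eq hd hR (c := finrank ℝ E / k) (by positivity)
  have hbb : (finrank ℝ E : ℝ) * bb (finrank ℝ E) r R = k := by
    rw [bb, hII]
    field_simp
  refine ⟨r, fun x => zz (LL E p) r R (LL E x), ⟨hr, hrR, isLip_comp_LL (isLip_zz hd0 _ hr hrR),
    fun x => zz_nonneg hd0 _ hr hrR _, fun x => zz_le_one hd0 _ hr hrR _, ?_, ?_, ?_⟩⟩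
  · intro x hx
    apply zz_eq_zero
    rw [norm_LL_sub]
    rwa [mem_closedBall, dist_eq_norm] at hx
  · intro x hx
    apply zz_eq_one hd0 _ hr hrR
    rw [norm_LL_sub]
    rwa [mem_ball, dist_eq_norm, not_lt] at hx
  · intro ψ hψ h0
    set φ : V (finrank ℝ E) → ℝ := fun y => ψ ((LL E).symm y) with hφ
    have hφψ : ∀ x, φ (LL E x) = ψ x := fun x => by rw [hφ]; simp
    have hφψ' : (fun x => φ (LL E x)) = ψ := funext hφψ
    have hgr : ∀ x, ∇ ψ x = (LL E).symm (∇ φ (LL E x)) := fun x => by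
      rw [← gradient_comp_LL φ x, hφψ']
    have h := integral_ip_zz (d := finrank ℝ E) hd0 (LL E p) hr hrR (ψ := φ)
      (isLip_comp_symm hψ) (fun x hx => by
        apply h0
        rw [mem_closedBall, dist_eq_norm] at hx ⊢
        rwa [← norm_LL_sub, (LL E).apply_symm_apply])
    have hball : ∀ x, LL E x ∈ ball (LL E p) R ↔ x ∈ ball p R := fun x => by
      rw [mem_ball, mem_ball, dist_eq_norm, dist_eq_norm, norm_LL_sub]
    rw [hbb] at h
    rw [← integral_indicator measurableSet_ball, ← integral_comp_LL, ← integral_comp_LL] at h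
    rw [← integral_indicator measurableSet_ball]
    convert h using 2
    · funext x
      rw [gradient_comp_LL, hgr x, LinearIsometryEquiv.inner_map_map]
      rfl
    · refine integral_congr_ae (Eventually.of_forall fun x => ?_)
      by_cases hx : x ∈ ball p R
      · simp only [indicator_of_mem hx, indicator_of_mem ((hball x).2 hx), hφψ]
      · simp only [indicator_of_notMem hx, indicator_of_notMem (mt (hball x).1 hx)]

end

end Pool.Agent.H95.PerfD
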