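import Pool.Agent.H95.PerfD.Profile

/-!
# The corrector in `ℝ^d`

For `0 < r < R` the function `zz p r R` vanishes on the closed ball of radius `r` around `p`, equals
`1` outside the ball of radius `R`, and solves `-Δ z = d b` in between, with zero normal derivative
at the outer sphere.  The main identity is `integral_ip_zz`.
-/

open MeasureTheory Set Metric Filter Topology
open scoped RealInnerProductSpace Gradient

namespace Pool.Agent.H95.PerfD

open Pool.Agent.H95.Perf (IsLip)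

/-- Euclidean space -/
abbrev V (d : ℕ) := EuclideanSpace ℝ (Fin d)

variable {d : ℕ}

/-! ### inner product of gradients -/

/-- The inner product of the gradients of two functions. -/
noncomputable def ip (f g : V d → ℝ) (x : V d) : ℝ := ⟪∇ f x, ∇ g x⟫

theorem norm_gradient (f : V d → ℝ) (x : V d) : ‖∇ f x‖ = ‖fderiv ℝ f x‖ := by
  rw [← toDual_gradient, LinearIsometryEquiv.norm_map]

theorem ip_self (f : V d → ℝ) (x : V d) : ip f f x = ‖fderiv ℝ f x‖ ^ 2 := by
  rw [ip, real_inner_self_eq_norm_sq, norm_gradient]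

theorem ip_comm (f g : V d → ℝ) (x : V d) : ip f g x = ip g f x := real_inner_comm _ _

theorem inner_gradient (f : V d → ℝ) (x v : V d) : ⟪∇ f x, v⟫ = fderiv ℝ f x v := by
  rw [← toDual_gradient]; rfl

/-- the standard basis -/
noncomputable def ee (i : Fin d) : V d := EuclideanSpace.single i 1

/-- the coordinates -/
noncomputable def co (i : Fin d) : V d →L[ℝ] ℝ := EuclideanSpace.proj i

theorem co_apply (i : Fin d) (x : V d) : co i x = x i := rfl

theorem inner_eq (x y : V d) : ⟪x, y⟫ = ∑ i, x i * y i := by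
  rw [PiLp.inner_apply]
  refine Finset.sum_congr rfl fun i _ => ?_
  simp [mul_comm]

theorem inner_ee (x : V d) (i : Fin d) : ⟪x, ee i⟫ = co i x := by
  rw [inner_eq, Finset.sum_eq_single i]
  · simp [ee, co]
  · intro b _ hb
    simp [ee, hb]
  · simp

theorem co_ee (i : Fin d) : co i (ee i) = 1 := by simp [ee, co]

theorem norm_ee (i : Fin d) : ‖ee i‖ = 1 := by simp [ee]

theorem abs_co_le (i : Fin d) (x : V d) : |co i x| ≤ ‖x‖ := by
  have h := PiLp.norm_apply_le x i
  rwa [Real.norm_eq_abs] at h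

theorem gradient_apply (f : V d → ℝ) (x : V d) (i : Fin d) :
    co i (∇ f x) = fderiv ℝ f x (ee i) := by
  rw [← inner_gradient, inner_ee]

theorem ip_eq (f g : V d → ℝ) (x : V d) :
    ip f g x = ∑ i, fderiv ℝ f x (ee i) * fderiv ℝ g x (ee i) := by
  rw [ip, inner_eq]
  refine Finset.sum_congr rfl fun i _ => ?_
  rw [← gradient_apply, ← gradient_apply, co_apply, co_apply]

theorem measurable_gradient (f : V d → ℝ) : Measurable (fun x => ∇ f x) := by
  have h : (fun x => ∇ f x) = fun x => (InnerProductSpace.toDual ℝ (V d)).symm (fderiv ℝ f x) :=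
    rfl
  rw [h]
  exact (InnerProductSpace.toDual ℝ (V d)).symm.continuous.measurable.comp (measurable_fderiv ℝ f)

theorem measurable_ip (f g : V d → ℝ) : Measurable (ip f g) :=
  (measurable_gradient f).inner (measurable_gradient g)

theorem abs_ip_le (f g : V d → ℝ) (x : V d) :
    |ip f g x| ≤ ‖fderiv ℝ f x‖ * ‖fderiv ℝ g x‖ := by
  rw [← norm_gradient, ← norm_gradient]
  exact abs_real_inner_le_norm _ _

/-- bounded measurable functions vanishing off a compact set are integrable. -/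
theorem integrable_of_bdd {h : V d → ℝ} (hm : Measurable h) {K : Set (V d)} (hK : IsCompact K)
    {A : ℝ} (hA : ∀ x, |h x| ≤ A) (h0 : ∀ x, x ∉ K → h x = 0) : Integrable h := by
  have : IntegrableOn h K := by
    refine Measure.integrableOn_of_bounded (M := A) hK.measure_lt_top.ne
      hm.aestronglyMeasurable ?_
    exact Eventually.of_forall fun x => by simpa using hA x
  rw [← integrableOn_univ]
  refine this.of_forall_sdiff_eq_zero MeasurableSet.univ fun x hx => h0 x hx.2

theorem ip_eq_zero_of_notMem_left {f : V d → ℝ} (g : V d → ℝ) {x : V d} (hx : x ∉ tsupport f) :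
    ip f g x = 0 := by
  have : fderiv ℝ f x = 0 := by
    by_contra h
    exact hx (support_fderiv_subset ℝ h)
  rw [ip_eq, this]; simp

theorem integrable_ip {f g : V d → ℝ} (hf : IsLip f) (hg : IsLip g) (hc : HasCompactSupport f) :
    Integrable (ip f g) := by
  obtain ⟨C, hC⟩ := hf
  obtain ⟨D, hD⟩ := hg
  refine integrable_of_bdd (measurable_ip f g) hc (A := C * D) (fun x => ?_)
    (fun x hx => ip_eq_zero_of_notMem_left g hx)
  refine (abs_ip_le f g x).trans ?_
  gcongr
  · exact norm_fderiv_le_of_lipschitz ℝ hC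
  · exact norm_fderiv_le_of_lipschitz ℝ hD

/-- bounded: compactly supported continuous functions. -/
theorem exists_bound {f : V d → ℝ} (hf : Continuous f) (hc : HasCompactSupport f) :
    ∃ A, 0 ≤ A ∧ ∀ x, |f x| ≤ A := by
  obtain ⟨A, hA⟩ := hf.bounded_above_of_compact_support hc
  refine ⟨max A 0, le_max_right _ _, fun x => ?_⟩
  exact (hA x).trans (le_max_left _ _)

/-! ### the corrector -/

/-- clamp of the distance to `p` between `r` and `R` -/
noncomputable def cl (p : V d) (r R : ℝ) (x : V d) : ℝ := max r (min ‖x - p‖ R)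

/-- the corrector -/
noncomputable def zz (p : V d) (r R : ℝ) (x : V d) : ℝ := Zf d r R (cl p r R x)

theorem cl_mem (p : V d) {r R : ℝ} (hrR : r < R) (x : V d) : cl p r R x ∈ Icc r R :=
  ⟨le_max_left _ _, max_le hrR.le (min_le_right _ _)⟩

theorem isLip_dist (p : V d) : IsLip (fun x : V d => ‖x - p‖) := by
  refine IsLip.of_abs_le (K := 1) fun x y => ?_
  rw [one_mul, dist_eq_norm]
  have := abs_norm_sub_norm_le (x - p) (y - p)
  simpa using this

theorem isLip_cl (p : V d) (r R : ℝ) : IsLip (cl p r R) :=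
  (IsLip.const r).max ((isLip_dist p).min (IsLip.const R))

theorem isLip_zz (hd : d ≠ 0) (p : V d) {r R : ℝ} (hr : 0 < r) (hrR : r < R) :
    IsLip (zz p r R) :=
  IsLip.comp_on (s := Icc r R) (lipschitzOnWith_Zf hd hr hrR) (isLip_cl p r R) (cl_mem p hrR)

theorem zz_nonneg (hd : d ≠ 0) (p : V d) {r R : ℝ} (hr : 0 < r) (hrR : r < R) (x : V d) :
    0 ≤ zz p r R x := by
  have h := cl_mem p hrR x
  rw [← Zf_left d r R]
  exact Zf_mono hd hr hrR hr h.1 h.2

theorem zz_le_one (hd : d ≠ 0) (p : V d) {r R : ℝ} (hr : 0 < r) (hrR : r < R) (x : V d) :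
    zz p r R x ≤ 1 := by
  have h := cl_mem p hrR x
  rw [← Zf_right hd hr hrR]
  exact Zf_mono hd hr hrR (hr.trans_le h.1) h.2 le_rfl

theorem zz_eq_zero (p : V d) {r R : ℝ} {x : V d} (hx : ‖x - p‖ ≤ r) :
    zz p r R x = 0 := by
  have : cl p r R x = r := max_eq_left ((min_le_left _ _).trans hx)
  rw [zz, this, Zf_left]

theorem zz_eq_one (hd : d ≠ 0) (p : V d) {r R : ℝ} (hr : 0 < r) (hrR : r < R) {x : V d}
    (hx : R ≤ ‖x - p‖) : zz p r R x = 1 := by
  have : cl p r R x = R := by rw [cl, min_eq_right hx, max_eq_right hrR.le]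
  rw [zz, this, Zf_right hd hr hrR]

theorem cl_eq (p : V d) {r R : ℝ} {x : V d} (h1 : r ≤ ‖x - p‖) (h2 : ‖x - p‖ ≤ R) :
    cl p r R x = ‖x - p‖ := by rw [cl, min_eq_left h2, max_eq_right h1]

/-- the three regions, up to a null set -/
theorem ae_regions (hd : d ≠ 0) (p : V d) (r R : ℝ) :
    ∀ᵐ x : V d, ‖x - p‖ < r ∨ (r < ‖x - p‖ ∧ ‖x - p‖ < R) ∨ R < ‖x - p‖ := by
  have : Nonempty (Fin d) := ⟨⟨0, Nat.pos_of_ne_zero hd⟩⟩
  have h1 : ∀ᵐ x : V d, x ∉ sphere p r := measure_eq_zero_iff_ae_notMem.1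
    (Measure.addHaar_sphere volume p r)
  have h2 : ∀ᵐ x : V d, x ∉ sphere p R := measure_eq_zero_iff_ae_notMem.1
    (Measure.addHaar_sphere volume p R)
  filter_upwards [h1, h2] with x hx1 hx2
  rw [mem_sphere, dist_eq_norm] at hx1 hx2
  rcases lt_trichotomy ‖x - p‖ r with h | h | h
  · exact Or.inl h
  · exact absurd h hx1
  · rcases lt_trichotomy ‖x - p‖ R with h' | h' | h'
    · exact Or.inr (Or.inl ⟨h, h'⟩)
    · exact absurd h' hx2
    · exact Or.inr (Or.inr h')

theorem eventually_lt_norm {p : V d} {a : ℝ} {x : V d} (hx : ‖x - p‖ < a) :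
    ∀ᶠ y in 𝓝 x, ‖y - p‖ < a := by
  have : Continuous fun y : V d => ‖y - p‖ := by fun_prop
  exact this.continuousAt.eventually_lt continuousAt_const hx

theorem eventually_gt_norm {p : V d} {a : ℝ} {x : V d} (hx : a < ‖x - p‖) :
    ∀ᶠ y in 𝓝 x, a < ‖y - p‖ := by
  have : Continuous fun y : V d => ‖y - p‖ := by fun_prop
  exact continuousAt_const.eventually_lt this.continuousAt hx

theorem fderiv_zz_in (p : V d) {r R : ℝ} {x : V d} (hx : ‖x - p‖ < r) :
    fderiv ℝ (zz p r R) x = 0 := by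
  have : zz p r R =ᶠ[𝓝 x] fun _ => (0 : ℝ) := by
    filter_upwards [eventually_lt_norm hx] with y hy
    exact zz_eq_zero p hy.le
  rw [this.fderiv_eq]; simp

theorem fderiv_zz_out (hd : d ≠ 0) (p : V d) {r R : ℝ} (hr : 0 < r) (hrR : r < R) {x : V d}
    (hx : R < ‖x - p‖) : fderiv ℝ (zz p r R) x = 0 := by
  have : zz p r R =ᶠ[𝓝 x] fun _ => (1 : ℝ) := by
    filter_upwards [eventually_gt_norm hx] with y hy
    exact zz_eq_one hd p hr hrR hy.le
  rw [this.fderiv_eq]; simp

theorem hasFDerivAt_norm_sub {p x : V d} (hx : 0 < ‖x - p‖) :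
    HasFDerivAt (fun y : V d => ‖y - p‖) ((1 / ‖x - p‖) • innerSL ℝ (x - p)) x := by
  have h := (hasStrictFDerivAt_norm_sq (x - p)).hasFDerivAt
  have h2 : HasFDerivAt (fun y : V d => y - p) (ContinuousLinearMap.id ℝ (V d)) x :=
    (hasFDerivAt_id x).sub_const p
  have h3 := h.comp x h2
  rw [ContinuousLinearMap.comp_id, ← Nat.cast_smul_eq_nsmul ℝ, Nat.cast_ofNat] at h3
  have h4 : HasFDerivAt (fun y : V d => Real.sqrt (‖y - p‖ ^ 2))
      ((1 / (2 * Real.sqrt (‖x - p‖ ^ 2))) • ((2 : ℝ) • innerSL ℝ (x - p))) x :=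
    HasFDerivAt.sqrt h3 (by positivity)
  simp only [Real.sqrt_sq (norm_nonneg _)] at h4
  convert h4 using 1
  rw [smul_smul]
  congr 1
  field_simp

theorem fderiv_zz_mid (p : V d) {r R : ℝ} (hr : 0 < r) {x : V d} (h1 : r < ‖x - p‖)
    (h2 : ‖x - p‖ < R) (v : V d) :
    fderiv ℝ (zz p r R) x v = bb d r R * (R ^ d / ‖x - p‖ ^ d - 1) * ⟪x - p, v⟫ := by
  have hx0 : 0 < ‖x - p‖ := hr.trans h1
  have hev : zz p r R =ᶠ[𝓝 x] fun y => Zf d r R ‖y - p‖ := by
    filter_upwards [eventually_gt_norm h1, eventually_lt_norm h2] with y hy1 hy2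
    rw [zz, cl_eq p hy1.le hy2.le]
  have hN := hasFDerivAt_norm_sub hx0
  have hZ := (hasDerivAt_Zf (d := d) (R := R) hr hx0).comp_hasFDerivAt x hN
  rw [hev.fderiv_eq]
  have hZ' : HasFDerivAt (fun y => Zf d r R ‖y - p‖)
      ((bb d r R * JJ d R ‖x - p‖) • ((1 / ‖x - p‖) • innerSL ℝ (x - p))) x := hZ
  rw [hZ'.fderiv]
  simp only [smul_apply, innerSL_apply_apply, smul_eq_mul, JJ]
  field_simp

/-- components of the vector field `∇ z` (continued inside the small ball) -/
noncomputable def gg (p : V d) (r R : ℝ) (i : Fin d) (x : V d) : ℝ :=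
  bb d r R * ((R ^ d / (cl p r R x) ^ d - 1) * max (-R) (min (co i (x - p)) R))

theorem isLip_coord (i : Fin d) (p : V d) : IsLip (fun x : V d => co i (x - p)) := by
  refine IsLip.of_abs_le (K := 1) fun x y => ?_
  rw [one_mul, dist_eq_norm, ← map_sub, sub_sub_sub_cancel_right]
  exact abs_co_le i _

theorem isLip_gg (p : V d) {r R : ℝ} (hr : 0 < r) (hrR : r < R) (i : Fin d) :
    IsLip (gg p r R i) := by
  have hR : 0 < R := hr.trans hrR
  have h1 : IsLip (fun x => R ^ d / (cl p r R x) ^ d - 1) := by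
    refine IsLip.comp_on (s := Icc r R) (h := fun m => R ^ d / m ^ d - 1) ?_ (isLip_cl p r R)
      (cl_mem p hrR)
    refine ContDiffOn.exists_lipschitzOnWith (n := 1) ?_ one_ne_zero (convex_Icc _ _)
      isCompact_Icc
    refine (contDiffOn_const.div (contDiffOn_id.pow d) fun x hx => ?_).sub contDiffOn_const
    have : 0 < x := hr.trans_le hx.1
    exact (pow_pos this d).ne'
  have h2 : IsLip (fun x : V d => max (-R) (min (co i (x - p)) R)) :=
    (IsLip.const (-R)).max ((isLip_coord i p).min (IsLip.const R))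
  refine IsLip.const_mul (IsLip.mul_bdd h1 h2 (A := R ^ d / r ^ d) (B := R) (fun x => ?_)
    (fun x => ?_)) _
  · have h := cl_mem p hrR x
    have h0 : 0 < cl p r R x := hr.trans_le h.1
    have h3 : 1 ≤ R ^ d / (cl p r R x) ^ d := one_le_ratio h0 h.2
    rw [abs_of_nonneg (by linarith)]
    have : R ^ d / (cl p r R x) ^ d ≤ R ^ d / r ^ d := by
      gcongr
      exact h.1
    linarith
  · rw [abs_le]
    exact ⟨le_max_left _ _, max_le (by linarith) (min_le_right _ _)⟩

theorem gg_out (p : V d) {r R : ℝ} (hr : 0 < r) (hrR : r < R) (i : Fin d) {x : V d}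
    (hx : R ≤ ‖x - p‖) : gg p r R i x = 0 := by
  have hR : 0 < R := hr.trans hrR
  have : cl p r R x = R := by rw [cl, min_eq_right hx, max_eq_right hrR.le]
  rw [gg, this, div_self (by positivity)]
  simp

theorem gg_mid (p : V d) {r R : ℝ} (i : Fin d) {x : V d}
    (h1 : r ≤ ‖x - p‖) (h2 : ‖x - p‖ ≤ R) :
    gg p r R i x = bb d r R * ((R ^ d / ‖x - p‖ ^ d - 1) * co i (x - p)) := by
  have h3 : |co i (x - p)| ≤ R := (abs_co_le i _).trans h2
  rw [abs_le] at h3
  rw [gg, cl_eq p h1 h2, min_eq_left h3.2, max_eq_right h3.1]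

theorem hasCompactSupport_gg (p : V d) {r R : ℝ} (hr : 0 < r) (hrR : r < R) (i : Fin d) :
    HasCompactSupport (gg p r R i) := by
  refine HasCompactSupport.intro (K := closedBall p R) (isCompact_closedBall p R) fun x hx => ?_
  apply gg_out p hr hrR
  rw [mem_closedBall, dist_eq_norm, not_le] at hx
  exact hx.le

theorem hasFDerivAt_coord (p x : V d) (i : Fin d) :
    HasFDerivAt (fun y : V d => co i (y - p)) (co i) x := by
  have h2 : HasFDerivAt (fun y : V d => y - p) (ContinuousLinearMap.id ℝ (V d)) x :=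
    (hasFDerivAt_id x).sub_const p
  have h3 := ((co i).hasFDerivAt (x := x - p)).comp x h2
  rw [ContinuousLinearMap.comp_id] at h3
  exact h3

theorem hasDerivAt_ratio (d : ℕ) (R : ℝ) {t : ℝ} (ht : 0 < t) :
    HasDerivAt (fun t : ℝ => R ^ d / t ^ d - 1) (-(d * R ^ d / t ^ (d + 1))) t := by
  have h1 : HasDerivAt (fun t : ℝ => t ^ d) (d * t ^ (d - 1)) t := hasDerivAt_pow d t
  have h2 : HasDerivAt (fun t : ℝ => (t ^ d)⁻¹) (-(d * t ^ (d - 1)) / (t ^ d) ^ 2) t :=
    h1.fun_inv (pow_pos ht d).ne'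
  have h3 := (h2.const_mul (R ^ d)).sub_const 1
  have e : (fun t : ℝ => R ^ d / t ^ d - 1) = fun t => R ^ d * (t ^ d)⁻¹ - 1 := by
    funext t; rw [div_eq_mul_inv]
  rw [e]
  refine h3.congr_deriv ?_
  rcases d with _ | k
  · simp
  · rw [Nat.add_sub_cancel, pow_succ t (k + 1), pow_succ t k]
    have ht0 : t ≠ 0 := ht.ne'
    have : t ^ k ≠ 0 := pow_ne_zero _ ht0
    field_simp

theorem fderiv_gg_mid (p : V d) {r R : ℝ} (hr : 0 < r) (i : Fin d) {x : V d}
    (h1 : r < ‖x - p‖) (h2 : ‖x - p‖ < R) :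
    fderiv ℝ (gg p r R i) x (ee i) = bb d r R *
      (-(d * R ^ d / ‖x - p‖ ^ (d + 2)) * (co i (x - p)) ^ 2 + (R ^ d / ‖x - p‖ ^ d - 1)) := by
  have hx0 : 0 < ‖x - p‖ := hr.trans h1
  have hev : gg p r R i =ᶠ[𝓝 x] fun y =>
      bb d r R * ((R ^ d / ‖y - p‖ ^ d - 1) * co i (y - p)) := by
    filter_upwards [eventually_gt_norm h1, eventually_lt_norm h2] with y hy1 hy2
    rw [gg_mid p i hy1.le hy2.le]
  have hN := hasFDerivAt_norm_sub hx0
  have hq : HasFDerivAt (fun y : V d => R ^ d / ‖y - p‖ ^ d - 1)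
      ((-(d * R ^ d / ‖x - p‖ ^ (d + 1))) • ((1 / ‖x - p‖) • innerSL ℝ (x - p))) x :=
    HasDerivAt.comp_hasFDerivAt (h₂ := fun t : ℝ => R ^ d / t ^ d - 1) x
      (hasDerivAt_ratio d R hx0) hN
  have hd := (hq.fun_mul (hasFDerivAt_coord p x i)).const_mul (bb d r R)
  rw [hev.fderiv_eq, hd.fderiv]
  simp only [smul_apply, add_apply, innerSL_apply_apply, smul_eq_mul]
  rw [inner_ee, co_ee, pow_add ‖x - p‖ d 2, pow_add ‖x - p‖ d 1]
  field_simp
  ring

theorem fderiv_gg_out (p : V d) {r R : ℝ} (hr : 0 < r) (hrR : r < R) (i : Fin d) {x : V d}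
    (hx : R < ‖x - p‖) : fderiv ℝ (gg p r R i) x = 0 := by
  have : gg p r R i =ᶠ[𝓝 x] fun _ => (0 : ℝ) := by
    filter_upwards [eventually_gt_norm hx] with y hy
    exact gg_out p hr hrR i hy.le
  rw [this.fderiv_eq]; simp

theorem norm_sq_eq (x : V d) : ‖x‖ ^ 2 = ∑ i, co i x ^ 2 := by
  rw [EuclideanSpace.norm_sq_eq]
  refine Finset.sum_congr rfl fun i _ => ?_
  rw [co_apply, Real.norm_eq_abs, sq_abs]

/-- a.e. identification of a line derivative with the Fréchet derivative -/
theorem ae_lineDeriv_eq {f : V d → ℝ} (hf : IsLip f) (v : V d) :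
    ∀ᵐ x : V d, lineDeriv ℝ f x v = fderiv ℝ f x v := by
  obtain ⟨C, hC⟩ := hf
  filter_upwards [hC.ae_differentiableAt] with x hx
  exact hx.lineDeriv_eq_fderiv

/-- integration by parts -/
theorem integral_fderiv_mul {f g : V d → ℝ} (hf : IsLip f) (hg : IsLip g)
    (hc : HasCompactSupport g) (v : V d) :
    ∫ x, fderiv ℝ f x v * g x = - ∫ x, fderiv ℝ g x v * f x := by
  have h1 : ∫ x, fderiv ℝ f x v * g x = ∫ x, lineDeriv ℝ f x v * g x := by
    refine integral_congr_ae ?_
    filter_upwards [ae_lineDeriv_eq hf v] with x hx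
    rw [hx]
  have h2 : ∫ x, lineDeriv ℝ g x (-v) * f x = - ∫ x, fderiv ℝ g x v * f x := by
    rw [← integral_neg]
    refine integral_congr_ae ?_
    filter_upwards [ae_lineDeriv_eq hg (-v)] with x hx
    rw [hx, map_neg]
    ring
  obtain ⟨C, hC⟩ := hf
  obtain ⟨D, hD⟩ := hg
  rw [h1, hC.integral_lineDeriv_mul_eq hD hc v, h2]

/-- **Main identity** for the corrector. -/
theorem integral_ip_zz (hd : d ≠ 0) (p : V d) {r R : ℝ} (hr : 0 < r) (hrR : r < R) {ψ : V d → ℝ}
    (hψ : IsLip ψ) (h0 : ∀ x ∈ closedBall p r, ψ x = 0) :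
    ∫ x, ip (zz p r R) ψ x = d * bb d r R * ∫ x in ball p R, ψ x := by
  have hI : ∀ i : Fin d, Integrable (fun x => fderiv ℝ ψ x (ee i) * gg p r R i x) := by
    intro i
    obtain ⟨C, hC⟩ := hψ
    obtain ⟨A, hA0, hA⟩ := exists_bound (isLip_gg p hr hrR i).continuous
      (hasCompactSupport_gg p hr hrR i)
    refine integrable_of_bdd ?_ (hasCompactSupport_gg p hr hrR i) (A := C * ‖ee i‖ * A)
      (fun x => ?_) (fun x hx => ?_)
    · exact (measurable_fderiv_apply_const ℝ ψ (ee i)).mul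
        (isLip_gg p hr hrR i).continuous.measurable
    · rw [abs_mul]
      gcongr
      · refine ((fderiv ℝ ψ x).le_opNorm (ee i)).trans ?_
        gcongr
        exact norm_fderiv_le_of_lipschitz ℝ hC
      · exact hA x
    · rw [image_eq_zero_of_notMem_tsupport hx, mul_zero]
  have hJ : ∀ i : Fin d, Integrable (fun x => fderiv ℝ (gg p r R i) x (ee i) * ψ x) := by
    intro i
    obtain ⟨C, hC⟩ := isLip_gg p hr hrR i
    have hcont := hψ.continuous
    obtain ⟨A, hA⟩ := (isCompact_closedBall p R).exists_bound_of_continuousOn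
      (f := ψ) hcont.continuousOn
    have hA0 : ∀ x ∈ closedBall p R, |ψ x| ≤ max A 0 := fun x hx =>
      (hA x hx).trans (le_max_left _ _)
    refine integrable_of_bdd ?_ (isCompact_closedBall p R) (A := C * ‖ee i‖ * max A 0)
      (fun x => ?_) (fun x hx => ?_)
    · exact (measurable_fderiv_apply_const ℝ _ (ee i)).mul hcont.measurable
    · by_cases hx : x ∈ closedBall p R
      · rw [abs_mul]
        gcongr
        · refine ((fderiv ℝ (gg p r R i) x).le_opNorm (ee i)).trans ?_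
          gcongr
          exact norm_fderiv_le_of_lipschitz ℝ hC
        · exact hA0 x hx
      · rw [mem_closedBall, dist_eq_norm, not_le] at hx
        rw [fderiv_gg_out p hr hrR i hx]
        simp only [zero_apply, zero_mul, abs_zero]
        positivity
    · rw [mem_closedBall, dist_eq_norm, not_le] at hx
      rw [fderiv_gg_out p hr hrR i hx]
      simp
  have hψ' : ∀ x, ‖x - p‖ < r → fderiv ℝ ψ x = 0 := by
    intro x hx
    have : ψ =ᶠ[𝓝 x] fun _ => (0 : ℝ) := by
      filter_upwards [eventually_lt_norm hx] with y hy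
      apply h0
      rw [mem_closedBall, dist_eq_norm]
      exact hy.le
    rw [this.fderiv_eq]; simp
  have e1 : ∫ x, ip (zz p r R) ψ x = ∫ x, ∑ i, fderiv ℝ ψ x (ee i) * gg p r R i x := by
    refine integral_congr_ae ?_
    filter_upwards [ae_regions hd p r R] with x hx
    rw [ip_eq]
    rcases hx with hx | ⟨hx1, hx2⟩ | hx
    · simp [hψ' x hx]
    · refine Finset.sum_congr rfl fun i _ => ?_
      rw [fderiv_zz_mid p hr hx1 hx2, gg_mid p i hx1.le hx2.le, inner_ee]
      ring
    · refine Finset.sum_congr rfl fun i _ => ?_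
      rw [fderiv_zz_out hd p hr hrR hx, gg_out p hr hrR i hx.le]
      simp
  have e2 : ∀ i : Fin d, ∫ x, fderiv ℝ ψ x (ee i) * gg p r R i x =
      - ∫ x, fderiv ℝ (gg p r R i) x (ee i) * ψ x := fun i =>
    integral_fderiv_mul hψ (isLip_gg p hr hrR i) (hasCompactSupport_gg p hr hrR i) _
  rw [e1, integral_finsetSum _ fun i _ => hI i, Finset.sum_congr rfl fun i _ => e2 i,
    Finset.sum_neg_distrib, ← integral_finsetSum _ fun i _ => hJ i, ← integral_neg,
    ← integral_const_mul, ← integral_indicator measurableSet_ball]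
  refine integral_congr_ae ?_
  filter_upwards [ae_regions hd p r R] with x hx
  have hmem : x ∈ ball p R ↔ ‖x - p‖ < R := by rw [mem_ball, dist_eq_norm]
  rcases hx with hx | ⟨hx1, hx2⟩ | hx
  · have hx0 : ψ x = 0 := h0 x (by rw [mem_closedBall, dist_eq_norm]; exact hx.le)
    rw [indicator_of_mem (hmem.2 (hx.trans hrR)), hx0]
    simp
  · rw [indicator_of_mem (hmem.2 hx2)]
    have hx0 : 0 < ‖x - p‖ := hr.trans hx1
    have e3 : ∀ i : Fin d, fderiv ℝ (gg p r R i) x (ee i) * ψ x = bb d r R * ψ x *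
        (-(d * R ^ d / ‖x - p‖ ^ (d + 2)) * (co i (x - p)) ^ 2) +
        bb d r R * ψ x * (R ^ d / ‖x - p‖ ^ d - 1) := fun i => by
      rw [fderiv_gg_mid p hr i hx1 hx2]
      ring
    rw [Finset.sum_congr rfl fun i _ => e3 i, Finset.sum_add_distrib, ← Finset.mul_sum,
      ← Finset.mul_sum, ← norm_sq_eq, Finset.sum_const, Finset.card_univ, Fintype.card_fin,
      nsmul_eq_mul, pow_add ‖x - p‖ d 2]
    have : (‖x - p‖ ^ d) ≠ 0 := (pow_pos hx0 d).ne'
    field_simp
    ring
  · rw [indicator_of_notMem (by rw [hmem]; exact not_lt.2 hx.le), neg_eq_zero]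
    refine Finset.sum_eq_zero fun i _ => ?_
    rw [fderiv_gg_out p hr hrR i hx]
    simp

end Pool.Agent.H95.PerfD
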