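import Pool.Agent.H4.NM.Defs

/-!
# Grid cubes in `ℝ^d` (MP_898b17_an, all dimensions)
-/

namespace Pool.Agent.H4.NM

/-- Index of the grid cube of side `h` containing `z`. -/
noncomputable def cellOf {d : ℕ} (h : ℝ) (z : EuclideanSpace ℝ (Fin d)) : Fin d → ℤ :=
  fun i => ⌊z i / h⌋

/-- Open grid cube. -/
def osq {d : ℕ} (h : ℝ) (a : Fin d → ℤ) : Set (EuclideanSpace ℝ (Fin d)) :=
  {z | ∀ i, a i * h < z i ∧ z i < (a i + 1) * h}

end Pool.Agent.H4.NM
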