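import Pool.Agent.H95.PerfD.Energy

/-!
# Estimates for the corrector in `ℝ^d`
-/

open MeasureTheory Set Metric Filter Topology
open scoped RealInnerProductSpace Gradient

namespace Pool.Agent.H95.PerfD

open Pool.Agent.H95.Perf (IsLip)

variable {d : ℕ}

/-- volume of the unit ball -/
noncomputable def om (d : ℕ) : ℝ := volume.real (ball (0 : V d) 1)

theorem om_pos (d : ℕ) : 0 < om d := by
  unfold om
  rw [measureReal_def, ENNReal.toReal_pos_iff]
  exact ⟨measure_ball_pos volume _ one_pos, measure_ball_lt_top⟩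

theorem volume_real_ball (p : V d) {R : ℝ} (hR : 0 < R) :
    volume.real (ball p R) = R ^ d * om d := by
  rw [measureReal_def, Measure.addHaar_ball_of_pos volume p hR, finrank_euclideanSpace,
    Fintype.card_fin, ENNReal.toReal_mul, ENNReal.toReal_ofReal (by positivity)]
  rfl

theorem volume_real_ball_pos (p : V d) {R : ℝ} (hR : 0 < R) : 0 < volume.real (ball p R) := by
  rw [volume_real_ball p hR]
  have := om_pos d
  positivity

theorem integrableOn_ball {f : V d → ℝ} (hf : Continuous f) (p : V d) (R : ℝ) :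
    IntegrableOn f (ball p R) :=
  (hf.continuousOn.integrableOn_compact (isCompact_closedBall p R)).mono_set ball_subset_closedBall

/-- the constant in the main identity -/
noncomputable def kp (d : ℕ) (r R : ℝ) : ℝ := d * bb d r R

theorem kp_pos (hd : d ≠ 0) {r R : ℝ} (hr : 0 < r) (hrR : r < R) : 0 < kp d r R := by
  have := bb_pos hd hr hrR
  have : (0 : ℝ) < d := by exact_mod_cast Nat.pos_of_ne_zero hd
  unfold kp
  positivity

theorem pow_mul_one_sub_Zf_le (hd : d ≠ 0) {r R m : ℝ} (hr : 0 < r) (hrR : r < R) (hm : 0 < m)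
    (hmR : m ≤ R) : m ^ (d - 1) * (1 - Zf d r R m) ≤ bb d r R * R ^ (d + 1) := by
  have hb := bb_pos hd hr hrR
  have hR : 0 < R := hr.trans hrR
  have h := one_sub_Zf_le hd hr hrR hm hmR
  have e : m ^ (d - 1) * m = m ^ d := by
    rw [← pow_succ, Nat.sub_add_cancel (Nat.pos_of_ne_zero hd)]
  calc m ^ (d - 1) * (1 - Zf d r R m)
      ≤ m ^ (d - 1) * (bb d r R * (R ^ d * m / m ^ d * (R - m))) := by gcongr
    _ = bb d r R * (R ^ d * ((m ^ (d - 1) * m) / m ^ d) * (R - m)) := by ring
    _ = bb d r R * (R ^ d * (R - m)) := by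
        rw [e, div_self (pow_pos hm d).ne', mul_one]
    _ ≤ bb d r R * (R ^ d * R) := by
        gcongr
        linarith
    _ = bb d r R * R ^ (d + 1) := by ring

/-- integral of `1 - z` over the ball -/
theorem integral_one_sub_zz_le (hd : d ≠ 0) (p : V d) {r R : ℝ} (hr : 0 < r) (hrR : r < R) :
    ∫ x in ball p R, (1 - zz p r R x) ≤ kp d r R * R ^ 2 * volume.real (ball p R) := by
  have hR : 0 < R := hr.trans hrR
  have hb := bb_pos hd hr hrR
  have : Nonempty (Fin d) := ⟨⟨0, Nat.pos_of_ne_zero hd⟩⟩
  set f : ℝ → ℝ := fun y => if y < R then 1 - Zf d r R (max r (min y R)) else 0 with hf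
  have e1 : ∫ x in ball p R, (1 - zz p r R x) = ∫ x : V d, f ‖x‖ := by
    have e2 : ∫ x : V d, f ‖x‖ = ∫ x : V d, f ‖x - p‖ :=
      (integral_sub_right_eq_self (fun x : V d => f ‖x‖) p).symm
    rw [e2, ← integral_indicator measurableSet_ball]
    refine integral_congr_ae (Eventually.of_forall fun x => ?_)
    simp only [hf]
    by_cases hx : x ∈ ball p R
    · rw [indicator_of_mem hx]
      rw [mem_ball, dist_eq_norm] at hx
      rw [if_pos hx]
      rfl
    · rw [indicator_of_notMem hx]
      rw [mem_ball, dist_eq_norm] at hx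
      rw [if_neg hx]
  rw [e1, integral_fun_norm_addHaar, finrank_euclideanSpace, Fintype.card_fin, nsmul_eq_mul,
    smul_eq_mul, volume_real_ball p hR]
  have h1 : ∫ y in Ioi (0 : ℝ), y ^ (d - 1) • f y ≤
      ∫ y in Ioi (0 : ℝ), (Ioc (0 : ℝ) R).indicator (fun _ => bb d r R * R ^ (d + 1)) y := by
    refine integral_mono_of_nonneg ?_ ?_ ?_
    · refine (ae_restrict_iff' measurableSet_Ioi).2 (Eventually.of_forall fun y hy => ?_)
      have hy' : (0 : ℝ) < y := hy
      have h2 : 0 ≤ f y := by
        simp only [hf]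
        split_ifs with h
        · have := Zf_mono (d := d) hd hr hrR (hr.trans_le (le_max_left r (min y R)))
            (max_le hrR.le (min_le_right y R)) le_rfl
          rw [Zf_right hd hr hrR] at this
          linarith
        · exact le_rfl
      simp only [Pi.zero_apply, smul_eq_mul]
      positivity
    · refine Integrable.integrableOn ?_
      rw [integrable_indicator_iff measurableSet_Ioc]
      exact integrableOn_const measure_Ioc_lt_top.ne
    · refine (ae_restrict_iff' measurableSet_Ioi).2 (Eventually.of_forall fun y hy => ?_)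
      have hy' : (0 : ℝ) < y := hy
      simp only [hf, smul_eq_mul]
      split_ifs with h
      · rw [indicator_of_mem (show y ∈ Ioc 0 R from ⟨hy', h.le⟩), min_eq_left h.le]
        have hm : 0 < max r y := lt_max_of_lt_left hr
        have h3 := pow_mul_one_sub_Zf_le (d := d) hd hr hrR hm (max_le hrR.le h.le)
        have h4 : 0 ≤ 1 - Zf d r R (max r y) := by
          have := Zf_mono (d := d) hd hr hrR hm (max_le hrR.le h.le) le_rfl
          rw [Zf_right hd hr hrR] at this
          linarith
        refine le_trans ?_ h3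
        gcongr
        exact le_max_right _ _
      · rw [mul_zero]
        exact indicator_nonneg (fun _ _ => by positivity) _
  have h2 : ∫ y in Ioi (0 : ℝ), (Ioc (0 : ℝ) R).indicator (fun _ => bb d r R * R ^ (d + 1)) y =
      R * (bb d r R * R ^ (d + 1)) := by
    rw [setIntegral_indicator measurableSet_Ioc, setIntegral_const, smul_eq_mul]
    have : Ioi (0 : ℝ) ∩ Ioc 0 R = Ioc 0 R := inter_eq_right.2 fun x hx => hx.1
    rw [this, Real.volume_real_Ioc_of_le hR.le, sub_zero]
  rw [h2] at h1
  have hd0 : (0 : ℝ) ≤ d := Nat.cast_nonneg d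
  calc (d : ℝ) * (volume.real (ball (0 : V d) 1) * ∫ y in Ioi (0 : ℝ), y ^ (d - 1) • f y)
      ≤ (d : ℝ) * (volume.real (ball (0 : V d) 1) * (R * (bb d r R * R ^ (d + 1)))) := by
        gcongr
    _ = kp d r R * R ^ 2 * (R ^ d * om d) := by rw [kp, om]; ring

end Pool.Agent.H95.PerfD
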