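import Pool.Agent.H95.Perf.Basic

/-!
# The radial profile of the corrector in `ℝ^d`

`JJ d R t = t (R^d / t^d - 1)`, `Zf d r R m = b ∫_r^m JJ` with `b = 1 / ∫_r^R JJ`.
-/

open MeasureTheory Set Metric Filter Topology

namespace Pool.Agent.H95.PerfD

/-- the integrand of the profile -/
noncomputable def JJ (d : ℕ) (R t : ℝ) : ℝ := t * (R ^ d / t ^ d - 1)

variable {d : ℕ} {r R : ℝ}

theorem continuousOn_JJ (d : ℕ) (R : ℝ) : ContinuousOn (JJ d R) (Ioi 0) := by
  unfold JJ
  refine continuousOn_id.mul ((continuousOn_const.div (continuousOn_id.pow d) fun x hx => ?_).sub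
    continuousOn_const)
  have hx' : (0 : ℝ) < x := hx
  exact (pow_pos hx' d).ne'

theorem one_le_ratio {t : ℝ} (ht : 0 < t) (htR : t ≤ R) : 1 ≤ R ^ d / t ^ d := by
  rw [one_le_div (pow_pos ht d)]
  gcongr

theorem JJ_nonneg {t : ℝ} (ht : 0 < t) (htR : t ≤ R) : 0 ≤ JJ d R t :=
  mul_nonneg ht.le (sub_nonneg.2 (one_le_ratio ht htR))

theorem JJ_pos (hd : d ≠ 0) {t : ℝ} (ht : 0 < t) (htR : t < R) : 0 < JJ d R t := by
  refine mul_pos ht (sub_pos.2 ?_)
  rw [one_lt_div (pow_pos ht d)]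
  gcongr

theorem intervalIntegrable_JJ {a b : ℝ} (ha : 0 < a) (hb : 0 < b) :
    IntervalIntegrable (JJ d R) volume a b := by
  refine ContinuousOn.intervalIntegrable ((continuousOn_JJ d R).mono fun x hx => ?_)
  rw [mem_uIcc] at hx
  rcases hx with hx | hx
  · exact ha.trans_le hx.1
  · exact hb.trans_le hx.1

/-- `∫_r^R JJ` -/
noncomputable def II (d : ℕ) (R r : ℝ) : ℝ := ∫ t in r..R, JJ d R t

theorem II_pos (hd : d ≠ 0) (hr : 0 < r) (hrR : r < R) : 0 < II d R r := by
  refine intervalIntegral.intervalIntegral_pos_of_pos_on (intervalIntegrable_JJ hr (hr.trans hrR))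
    (fun x hx => JJ_pos hd (hr.trans hx.1) hx.2) hrR

theorem II_self (d : ℕ) (R : ℝ) : II d R R = 0 := by simp [II]

theorem II_anti {a b : ℝ} (ha : 0 < a) (hab : a ≤ b) (hbR : b ≤ R) : II d R b ≤ II d R a := by
  have hb : 0 < b := ha.trans_le hab
  have h := intervalIntegral.integral_add_adjacent_intervals (μ := volume)
    (intervalIntegrable_JJ (d := d) (R := R) ha hb) (intervalIntegrable_JJ hb (hb.trans_le hbR))
  have h2 : 0 ≤ ∫ t in a..b, JJ d R t :=
    intervalIntegral.integral_nonneg hab fun t ht => JJ_nonneg (ha.trans_le ht.1) (ht.2.trans hbR)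
  unfold II
  linarith

theorem continuousOn_II (d : ℕ) (hR : 0 < R) : ContinuousOn (II d R) (Ioi 0) := by
  intro x hx
  have hx' : (0 : ℝ) < x := hx
  have h : HasDerivAt (fun u => ∫ t in u..R, JJ d R t) (-JJ d R x) x := by
    refine intervalIntegral.integral_hasDerivAt_left (intervalIntegrable_JJ hx' hR) ?_ ?_
    · exact (continuousOn_JJ d R).stronglyMeasurableAtFilter isOpen_Ioi x hx
    · exact (continuousOn_JJ d R).continuousAt (isOpen_Ioi.mem_nhds hx)
  exact h.continuousAt.continuousWithinAt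

/-- The integral is large for small `r` (here `2 ≤ d` is used). -/
theorem exists_II_ge (hd : 2 ≤ d) (hR : 0 < R) (c : ℝ) : ∃ a, 0 < a ∧ a < R ∧ c ≤ II d R a := by
  set y : ℝ := |c| / R ^ 2 + 1 with hy
  have hy0 : 0 < y := by positivity
  set a := R * Real.exp (-y) with ha
  have ha0 : 0 < a := by positivity
  have haR : a < R := by
    have : Real.exp (-y) < 1 := by rw [Real.exp_lt_one_iff]; linarith
    nlinarith
  refine ⟨a, ha0, haR, ?_⟩
  have h1 : ∀ t ∈ Icc a R, R ^ 2 * t⁻¹ - t ≤ JJ d R t := by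
    intro t ht
    have ht0 : 0 < t := ha0.trans_le ht.1
    have h2 : R ^ 2 / t ^ 2 ≤ R ^ d / t ^ d := by
      rw [← div_pow, ← div_pow]
      refine pow_le_pow_right₀ ?_ hd
      rw [one_le_div ht0]
      exact ht.2
    have e : R ^ 2 * t⁻¹ - t = t * (R ^ 2 / t ^ 2 - 1) := by
      field_simp
    rw [e, JJ]
    gcongr
  have i1 : IntervalIntegrable (fun t : ℝ => R ^ 2 * t⁻¹ - t) volume a R := by
    refine IntervalIntegrable.sub ?_ intervalIntegral.intervalIntegrable_id
    refine (intervalIntegral.intervalIntegrable_inv (fun x hx => ?_) continuousOn_id).const_mul _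
    rw [uIcc_of_le haR.le] at hx
    exact (ha0.trans_le hx.1).ne'
  have h3 : ∫ t in a..R, (R ^ 2 * t⁻¹ - t) ≤ II d R a :=
    intervalIntegral.integral_mono_on haR.le i1 (intervalIntegrable_JJ ha0 hR) h1
  refine le_trans ?_ h3
  have i2 : IntervalIntegrable (fun t : ℝ => R ^ 2 * t⁻¹) volume a R := by
    refine (intervalIntegral.intervalIntegrable_inv (fun x hx => ?_) continuousOn_id).const_mul _
    rw [uIcc_of_le haR.le] at hx
    exact (ha0.trans_le hx.1).ne'
  rw [intervalIntegral.integral_sub i2 intervalIntegral.intervalIntegrable_id,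
    intervalIntegral.integral_const_mul, integral_inv_of_pos ha0 hR, integral_id]
  have hlog : Real.log (R / a) = y := by
    have : R / a = Real.exp y := by
      rw [ha, Real.exp_neg]
      field_simp
    rw [this, Real.log_exp]
  rw [hlog, hy]
  have e2 : R ^ 2 * (|c| / R ^ 2 + 1) = |c| + R ^ 2 := by field_simp
  rw [e2]
  have := le_abs_self c
  nlinarith [sq_nonneg a, sq_nonneg R]

/-- Every positive value is taken. -/
theorem exists_II_eq (hd : 2 ≤ d) (hR : 0 < R) {c : ℝ} (hc : 0 < c) :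
    ∃ a, 0 < a ∧ a < R ∧ II d R a = c := by
  obtain ⟨a, ha0, haR, hac⟩ := exists_II_ge hd hR c
  have hcont : ContinuousOn (II d R) (Icc a R) :=
    (continuousOn_II d hR).mono fun x hx => ha0.trans_le hx.1
  have h := intermediate_value_Icc' haR.le hcont
  obtain ⟨x, hx, hxc⟩ := h ⟨by rw [II_self]; exact hc.le, hac⟩
  refine ⟨x, ha0.trans_le hx.1, lt_of_le_of_ne hx.2 fun h => ?_, hxc⟩
  rw [h, II_self] at hxc
  exact hc.ne hxc

/-- the constant `b` -/
noncomputable def bb (d : ℕ) (r R : ℝ) : ℝ := 1 / II d R r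

theorem bb_pos (hd : d ≠ 0) (hr : 0 < r) (hrR : r < R) : 0 < bb d r R :=
  one_div_pos.2 (II_pos hd hr hrR)

/-- profile of the corrector -/
noncomputable def Zf (d : ℕ) (r R m : ℝ) : ℝ := bb d r R * ∫ t in r..m, JJ d R t

theorem Zf_left (d : ℕ) (r R : ℝ) : Zf d r R r = 0 := by simp [Zf]

theorem Zf_right (hd : d ≠ 0) (hr : 0 < r) (hrR : r < R) : Zf d r R R = 1 := by
  have := (II_pos hd hr hrR).ne'
  rw [Zf, bb]
  change 1 / II d R r * II d R r = 1
  field_simp

theorem Zf_sub {m m' : ℝ} (hr : 0 < r) (hm : 0 < m) (hm' : 0 < m') :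
    Zf d r R m' - Zf d r R m = bb d r R * ∫ t in m..m', JJ d R t := by
  rw [Zf, Zf, ← mul_sub, intervalIntegral.integral_interval_sub_left
    (intervalIntegrable_JJ hr hm') (intervalIntegrable_JJ hr hm)]

theorem Zf_mono (hd : d ≠ 0) {m m' : ℝ} (hr : 0 < r) (hrR : r < R) (hm : 0 < m) (hmm : m ≤ m')
    (hm' : m' ≤ R) : Zf d r R m ≤ Zf d r R m' := by
  have h := Zf_sub (d := d) (R := R) hr hm (hm.trans_le hmm)
  have h2 : 0 ≤ ∫ t in m..m', JJ d R t :=
    intervalIntegral.integral_nonneg hmm fun t ht => JJ_nonneg (hm.trans_le ht.1) (ht.2.trans hm')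
  have h3 := mul_nonneg (bb_pos hd hr hrR).le h2
  linarith

/-- upper bound of the integrand -/
theorem JJ_le (hd : d ≠ 0) {m t : ℝ} (hm : 0 < m) (hmt : m ≤ t) (hR : 0 < R) :
    JJ d R t ≤ R ^ d * m / m ^ d := by
  have ht : 0 < t := hm.trans_le hmt
  obtain ⟨e, rfl⟩ := Nat.exists_eq_succ_of_ne_zero hd
  have h1 : JJ (e + 1) R t ≤ R ^ (e + 1) / t ^ e := by
    rw [JJ]
    calc t * (R ^ (e + 1) / t ^ (e + 1) - 1) ≤ t * (R ^ (e + 1) / t ^ (e + 1)) := by
          gcongr
          linarith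
      _ = R ^ (e + 1) / t ^ e := by
          rw [pow_succ t e]
          field_simp
  refine h1.trans ?_
  have e2 : R ^ (e + 1) * m / m ^ (e + 1) = R ^ (e + 1) / m ^ e := by
    rw [pow_succ m e]
    field_simp
  rw [Nat.succ_eq_add_one, e2]
  gcongr

theorem one_sub_Zf_le (hd : d ≠ 0) {m : ℝ} (hr : 0 < r) (hrR : r < R) (hm : 0 < m)
    (hmR : m ≤ R) : 1 - Zf d r R m ≤ bb d r R * (R ^ d * m / m ^ d * (R - m)) := by
  have hR : 0 < R := hr.trans hrR
  have h := Zf_sub (d := d) (R := R) hr hm hR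
  rw [Zf_right hd hr hrR] at h
  rw [h]
  have hb := (bb_pos hd hr hrR).le
  gcongr
  have h1 : ∫ t in m..R, JJ d R t ≤ ∫ _ in m..R, R ^ d * m / m ^ d :=
    intervalIntegral.integral_mono_on hmR (intervalIntegrable_JJ hm hR)
      intervalIntegrable_const fun t ht => JJ_le hd hm ht.1 hR
  rw [intervalIntegral.integral_const, smul_eq_mul] at h1
  linarith

theorem hasDerivAt_Zf {m : ℝ} (hr : 0 < r) (hm : 0 < m) :
    HasDerivAt (Zf d r R) (bb d r R * JJ d R m) m := by
  unfold Zf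
  refine HasDerivAt.const_mul _ ?_
  refine intervalIntegral.integral_hasDerivAt_right (intervalIntegrable_JJ hr hm) ?_ ?_
  · exact (continuousOn_JJ d R).stronglyMeasurableAtFilter isOpen_Ioi m hm
  · exact (continuousOn_JJ d R).continuousAt (isOpen_Ioi.mem_nhds hm)

theorem lipschitzOnWith_Zf (hd : d ≠ 0) (hr : 0 < r) (hrR : r < R) :
    ∃ C, LipschitzOnWith C (Zf d r R) (Icc r R) := by
  have hR : 0 < R := hr.trans hrR
  have hb := bb_pos hd hr hrR
  refine ⟨Real.toNNReal (bb d r R * (R ^ d * r / r ^ d)), ?_⟩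
  refine LipschitzOnWith.of_dist_le_mul fun x hx y hy => ?_
  rw [Real.coe_toNNReal _ (by positivity), Real.dist_eq, Real.dist_eq,
    Zf_sub hr (hr.trans_le hy.1) (hr.trans_le hx.1), abs_mul, abs_of_pos hb, mul_assoc]
  gcongr
  rw [← Real.norm_eq_abs]
  refine intervalIntegral.norm_integral_le_of_norm_le_const fun t ht => ?_
  have ht' : r ≤ t ∧ t ≤ R := by
    rw [mem_uIoc] at ht
    rcases ht with h | h
    · exact ⟨hy.1.trans h.1.le, h.2.trans hx.2⟩
    · exact ⟨hx.1.trans h.1.le, h.2.trans hy.2⟩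
  rw [Real.norm_of_nonneg (JJ_nonneg (hr.trans_le ht'.1) ht'.2)]
  exact JJ_le hd hr ht'.1 hR

end Pool.Agent.H95.PerfD
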